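import Pool.Agent.H46.CH.DU

/-!
# Row TGB: only blow-ups of trees are generated
-/

set_option autoImplicit false

namespace Pool.Agent.H43.CHD

open Classical Pool.Agent.H8.VR Pool.Agent.H69.VR Pool.Agent.H46.CH
open Pool.Agent.H8.JS (NTM Cfg Mv lang num)

/-- `X` carries the blow-up of a tree, with the colours `c` -/
def TInv {A : Type} (R : A → A → Prop) (X : Set A) (c : A → Fin 3) : Prop :=
  ∃ (T : ℕ) (b : A → ℕ) (p : ℕ → ℕ), (∀ i, (∃ x ∈ X, b x = i) ↔ i ≤ T) ∧ (∀ i, 0 < i → p i < i) ∧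
    (∀ x ∈ X, ∀ y ∈ X, (R x y ↔ b y = b x ∨ (0 < b y ∧ p (b y) = b x))) ∧
    ∀ x ∈ X, (c x = 0 ↔ b x = 0) ∧ (c x = 1 ↔ 0 < b x ∧ p (b x) = 0)

theorem fin3 (q : Fin 3) : q ≠ 2 ↔ q = 0 ∨ q = 1 := by
  revert q; decide

/-- the parents in the union -/
def pu (T : ℕ) (p p₂ : ℕ → ℕ) (j : ℕ) : ℕ :=
  if j ≤ T then p j else if j = T + 1 then 0 else p₂ (j - (T + 1)) + (T + 1)

theorem pu_l {T : ℕ} {p p₂ : ℕ → ℕ} {j : ℕ} (h : j ≤ T) : pu T p p₂ j = p j := if_pos h

theorem pu_0 {T : ℕ} {p p₂ : ℕ → ℕ} : pu T p p₂ (0 + (T + 1)) = 0 := by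
  rw [pu, if_neg (by omega), if_pos (by omega)]

theorem pu_r {T : ℕ} {p p₂ : ℕ → ℕ} {j : ℕ} (h : 0 < j) :
    pu T p p₂ (j + (T + 1)) = p₂ j + (T + 1) := by
  rw [pu, if_neg (by omega), if_neg (by omega), Nat.add_sub_cancel]

theorem tinv_of {A : Type} {P : ℕ → A → Prop} {R : ℕ → A → A → Prop} {s : Bool} {X : Set A}
    {c : A → Fin 3} (h : tbG.Gen 1 P R s X c) :
    (s = false → ∃ a, X = {a} ∧ c a = 0 ∧ R 0 a a) ∧ (s = true → TInv (R 0) X c) := by
  induction h with
  | pt x hx a c hc hP hR =>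
    have hq : x.q = 0 ∧ x.lp = fun _ => True := by
      simp only [tbG, List.mem_flatMap, List.mem_map] at hx
      obtain ⟨s, -, y, -, rfl⟩ := hx
      exact ⟨rfl, rfl⟩
    have h0 : R 0 a a := (hR 0 Nat.one_pos).2 (by rw [hq.2]; trivial)
    rw [hq.1] at hc
    refine ⟨fun _ => ⟨a, rfl, hc, h0⟩, fun _ => ⟨0, fun _ => 0, fun _ => 0, fun i => ?_,
      fun i hi => hi, ?_, ?_⟩⟩
    · constructor
      · rintro ⟨x, -, h⟩
        exact h ▸ le_rfl
      · intro h
        exact ⟨a, rfl, (Nat.le_zero.1 h).symm⟩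
    · rintro _ rfl _ rfl
      simp [h0]
    · rintro _ rfl
      rw [hc]
      simp
  | op o ho X Y c c₁ c₂ h₁ h₂ hd hD hR hX hY ih1 ih2 =>
    simp only [tbG, List.mem_cons, List.not_mem_nil, or_false] at ho
    rcases ho with rfl | rfl
    · refine ⟨fun h => absurd h (by simp), fun _ => ?_⟩
      obtain ⟨z, rfl, hz, hzz⟩ := ih2.1 rfl
      obtain ⟨T, b, p, k1, k2, k3, k4⟩ := ih1.2 rfl
      have hzX : z ∉ X := Set.disjoint_singleton_right.1 hd
      have e1 : ∀ x ∈ X, Function.update b z 0 x = b x := fun x hx =>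
        Function.update_of_ne (fun e : x = z => hzX (e ▸ hx)) _ _
      have e2 : Function.update b z 0 z = 0 := Function.update_self _ _ _
      refine ⟨T, Function.update b z 0, p, fun i => ⟨?_, ?_⟩, k2, ?_, ?_⟩
      · rintro ⟨x, hx | hx, rfl⟩
        · rw [e1 x hx]; exact (k1 _).1 ⟨x, hx, rfl⟩
        · rw [Set.mem_singleton_iff.1 hx, e2]; exact Nat.zero_le _
      · intro hi
        obtain ⟨x, hx, rfl⟩ := (k1 i).2 hi
        exact ⟨x, Or.inl hx, e1 x hx⟩
      · rintro x (hx | hx) y (hy | hy)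
        · rw [e1 x hx, e1 y hy]; exact k3 x hx y hy
        · obtain rfl := Set.mem_singleton_iff.1 hy
          rw [e1 x hx, e2, (hR x hx y rfl 0 Nat.one_pos).1]
          have := k4 x hx
          simp only
          omega
        · obtain rfl := Set.mem_singleton_iff.1 hx
          rw [e1 y hy, e2, (hR y hy x rfl 0 Nat.one_pos).2]
          have := k4 y hy
          simp only [fin3]
          omega
        · obtain rfl := Set.mem_singleton_iff.1 hx
          obtain rfl := Set.mem_singleton_iff.1 hy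
          rw [e2]
          simp [hzz]
      · rintro x (hx | hx)
        · rw [e1 x hx, hX x hx]; exact k4 x hx
        · obtain rfl := Set.mem_singleton_iff.1 hx
          rw [e2, hY x rfl]
          simp [hz]
    · refine ⟨fun h => absurd h (by simp), fun _ => ?_⟩
      obtain ⟨T, b, p, k1, k2, k3, k4⟩ := ih1.2 rfl
      obtain ⟨T₂, b₂, p₂, l1, l2, l3, l4⟩ := ih2.2 rfl
      have hYX : ∀ y ∈ Y, y ∉ X := fun y hy hx => Set.disjoint_left.1 hd hx hy
      have e1 : ∀ x ∈ X, (if x ∈ X then b x else b₂ x + (T + 1)) = b x := fun x hx => if_pos hx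
      have e2 : ∀ x ∈ Y, (if x ∈ X then b x else b₂ x + (T + 1)) = b₂ x + (T + 1) := fun x hx =>
        if_neg (hYX x hx)
      have kt : ∀ x ∈ X, b x ≤ T := fun x hx => (k1 _).1 ⟨x, hx, rfl⟩
      have lt : ∀ x ∈ Y, b₂ x ≤ T₂ := fun x hx => (l1 _).1 ⟨x, hx, rfl⟩
      refine ⟨T₂ + (T + 1), fun x => if x ∈ X then b x else b₂ x + (T + 1), pu T p p₂,
        fun i => ⟨?_, ?_⟩, ?_, ?_, ?_⟩
      · rintro ⟨x, hx | hx, rfl⟩
        · simp only [e1 x hx]; have := kt x hx; omega
        · simp only [e2 x hx]; have := lt x hx; omega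
      · intro hi
        rcases Nat.lt_or_ge T i with h | h
        · obtain ⟨y, hy, hyi⟩ := (l1 (i - (T + 1))).2 (by omega)
          exact ⟨y, Or.inr hy, by simp only [e2 y hy]; omega⟩
        · obtain ⟨x, hx, rfl⟩ := (k1 i).2 h
          exact ⟨x, Or.inl hx, by simp only [e1 x hx]⟩
      · intro i hi
        rw [pu]
        split_ifs with h h'
        · exact k2 i hi
        · omega
        · have := l2 (i - (T + 1)) (by omega)
          omega
      · rintro x (hx | hx) y (hy | hy)
        · simp only [e1 x hx, e1 y hy, pu_l (kt y hy)]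
          exact k3 x hx y hy
        · simp only [e1 x hx, e2 y hy]
          rw [(hR x hx y hy 0 Nat.one_pos).1]
          have h1 := k4 x hx
          have h2 := l4 y hy
          have h3 := kt x hx
          simp only
          rcases Nat.eq_zero_or_pos (b₂ y) with h | h
          · rw [h, pu_0]
            omega
          · rw [pu_r h]
            omega
        · simp only [e2 x hx, e1 y hy, pu_l (kt y hy)]
          rw [(hR y hy x hx 0 Nat.one_pos).2]
          have h3 := kt y hy
          simp only [false_iff]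
          rintro (h | ⟨h, h'⟩)
          · omega
          · have := k2 _ h
            omega
        · simp only [e2 x hx, e2 y hy]
          rw [l3 x hx y hy]
          rcases Nat.eq_zero_or_pos (b₂ y) with h | h
          · rw [h, pu_0]
            omega
          · rw [pu_r h]
            omega
      · rintro x (hx | hx)
        · simp only [e1 x hx, pu_l (kt x hx)]
          rw [hX x hx]
          exact k4 x hx
        · simp only [e2 x hx]
          rw [hY x hx]
          have h2 := l4 x hx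
          simp only
          rcases Nat.eq_zero_or_pos (b₂ x) with h | h
          · rw [if_pos (h2.1.2 h), h, pu_0]
            exact ⟨⟨fun h => absurd h (by decide), fun h => by omega⟩,
              ⟨fun _ => ⟨by omega, rfl⟩, fun _ => rfl⟩⟩
          · rw [if_neg (fun e => by have := h2.1.1 e; omega), pu_r h]
            exact ⟨⟨fun h => absurd h (by decide), fun h => by omega⟩,
              ⟨fun h => absurd h (by decide), fun h => by omega⟩⟩

theorem pf_TGB : Pool.Agent.H46.CH.T_TGB := by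
  rintro A _ P R ⟨c, hc⟩
  obtain ⟨T, b, p, k1, k2, k3, -⟩ := (tinv_of hc).2 rfl
  refine ⟨T, b, p, fun i => ⟨?_, ?_⟩, k2, fun x y => k3 x (Set.mem_univ x) y (Set.mem_univ y)⟩
  · rintro ⟨x, h⟩
    exact (k1 i).1 ⟨x, Set.mem_univ x, h⟩
  · intro h
    obtain ⟨x, -, h⟩ := (k1 i).2 h
    exact ⟨x, h⟩

end Pool.Agent.H43.CHD
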