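import Pool.Agent.H46.CH.DU

/-!
# Row TUP: the upper bound, assembled
-/

set_option autoImplicit false

namespace Pool.Agent.H43.CHD

open Classical Pool.Agent.H8.VR Pool.Agent.H69.VR Pool.Agent.H46.CH
open Pool.Agent.H8.JS (NTM Cfg Mv lang num)

theorem gtriv_of {N Q : Type} {G : Gram N Q} (h : ∀ o ∈ G.ops, o.D = {n | 0 < n}) : GTriv G := by
  intro o ho x y hx _
  rw [h o ho]
  exact lt_of_lt_of_le hx (Nat.left_le_pair x y)

theorem cwG_D (k m : ℕ) : ∀ o ∈ (cwG k m).ops, o.D = {n | 0 < n} := by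
  intro o ho
  obtain ⟨x, -, rfl⟩ := List.mem_map.1 ho
  rfl

theorem tbG_D : ∀ o ∈ tbG.ops, o.D = {n | 0 < n} := by
  intro o ho
  simp only [tbG, List.mem_cons, List.not_mem_nil, or_false] at ho
  rcases ho with rfl | rfl <;> rfl

theorem pf_TUP (hTUG : T_TUG) (hTUM : T_TUM) (hA : T_TGA) (hB : T_TGB) :
    Pool.Agent.H46.CH.T_TUP := by
  refine ⟨fun N Q _ _ G hG m s₀ Ψ φ h => hTUM N Q G (gtriv_of hG) m s₀ Ψ φ h,
    fun k m Ψ φ h => ?_, fun φ => ?_⟩
  · rw [specWM_eq]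
    exact hTUM Unit (Fin k) (cwG k m) (gtriv_of (cwG_D k m)) m () Ψ φ h
  · have e : specTB φ = specG tbG 1 true φ := by
      ext n
      refine and_congr_right fun hn => exists_congr fun P => exists_congr fun R => ?_
      have : Nonempty (Fin n) := ⟨⟨0, hn⟩⟩
      exact and_congr_left fun _ => ⟨fun h => hA (Fin n) P R h, fun h => hB (Fin n) P R h⟩
    rw [e]
    exact hTUG Bool (Fin 3) tbG (gtriv_of tbG_D) 1 true φ

end Pool.Agent.H43.CHD
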